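import Pool.Agent.J4H44.PM.A7

/-!
# The p-adic monodromy-weight conjecture for projective hyperkähler varieties

Let `K` be a finite extension of `ℚ_p`, with residue field with `p ^ h` elements, and `X` a projective
hyperkähler variety over `K`, of any dimension and of any deformation type. We prove the
`p`-adic monodromy-weight conjecture (Q1) for `X`, in all degrees. Inputs are the known case `H²` of the
conjecture, the action of `so(H²)` on the cohomology (Verbitsky, Looijenga-Lunts) and standard facts
on the cohomology of a spreading of `X` over a scheme of finite type over `ℤ[1/M]`, `p ∣ M`.

Idea of the proof. Let `S` be the base of the spreading and `Γ` its fundamental group, and let `A_i`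
be the algebra of the endomorphisms of the étale cohomology `H^i` which commute with `so(H²)`.

(1) Let `s` be a closed point of `S` whose residue field has a prime number `r` of elements. The slope
operator of the crystalline cohomology of the fibre is `S_i = i / 2 + ρ_i (S_2 - 1) + T_i` with `T_i` in
`A_i`. As `so(H²)` is perfect, the Hodge numbers of the eigenspaces of `T_i` are `i / 2` times their
dimension, and so weak admissibility shows that `T_i` is nilpotent. This only depends on the
characteristic polynomials of Frobenius, so it is also true in the étale cohomology, for
the valuations above `r` given by all embeddings of the algebraic numbers. So the eigenvalues of the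
Frobenius element of `s` on `A_i` (by conjugation) are roots of unity of bounded order.

(2) By Chebotarev's theorem `Γ` acts on `A_i` quasi-unipotently. This is an algebraic condition, so it
is true for all elements of the Zariski closure of the image of `Γ`, and so for the action of the Weil
group of `K` on `H_pst(X)`, because this action is given by elements of the Tannaka group. The operator
`N_i - ρ_i (N_2)` is in `A_i` and it is an eigenvector for a geometric Frobenius element with eigenvalue
`p ^ (-h)`. So `N_i = ρ_i (N_2)`.

(3) Let `D_i` be the weight operator of the geometric Frobenius element of `W_K`, minus `i`. Then
`D_i = ρ_i (D_2) + T'_i` where `T'_i` is in the center of `A_i`. Let `z` be the spectral projection of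
`T'_i` for the eigenvalue `x`. Its orbit under `Γ` is finite. If a Frobenius element of `Γ` fixes `z`
then its determinant on the image of `z` is, up to a root of unity of bounded order, a power of the
cyclotomic character, by (1). Multiply this equation by linear functions of the conjugates of `z`
which vanish at the conjugates different from `z`: one gets a polynomial equation which is true on `Γ`
and so in the Zariski closure. Hence the mean weight of the image of `z` is `i`, so `x = 0`, and `T'_i`
is nilpotent.

(4) The conjecture for `H²` gives an `sl₂`-triple `(Y, D_2, N_2)` in `so(H²)`. Its image in the
endomorphisms of `H^i` shows the conjecture for `H^i` and the geometric Frobenius element. As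
inertia acts by a finite group, each element of `W_K` has a power which acts as a power of the
geometric Frobenius element, and this gives the statement for all elements of `W_K`.
-/

set_option autoImplicit false

namespace Pool.Agent.Results.MP_6451f1_ag.HyperkaehlerVarieties

open Pool.Agent.J4H44.PM

/-- **The p-adic monodromy-weight conjecture for projective hyperkähler varieties.** Let `E` be the
`p`-adic cohomology of a projective hyperkähler variety `X` over a finite extension `K` of `ℚ_p` with
residue field with `p ^ h` elements, with the action of the fundamental group of the base of a
spreading of `X`, and let `L` be the Weil-Deligne representation on `H_pst(X)`. Then the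
monodromy-weight conjecture holds for `H^i_pst(X)`, for all `i`: each eigenvalue of each element `g`
of the Weil group of `K` on the graded piece `s` of the monodromy filtration is an algebraic number
all of whose conjugates have absolute value `p ^ ((i + s) v(g) / 2)`. -/
theorem result {Ω : Type} [Field Ω] [CharZero Ω] [IsAlgClosed Ω] [TopologicalSpace Ω]
    [IsTopologicalRing Ω] [T2Space Ω] (E : HKFamily Ω) {p h : ℕ} (L : WeilDeligne E p h) :
    ∀ i ≤ E.d, L.MonodromyWeight i :=
  fun _ hi => monodromyWeight L hi

end Pool.Agent.Results.MP_6451f1_ag.HyperkaehlerVarieties
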